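import Pool.Agent.D0H71.RPR.Up
import Mathlib.NumberTheory.Chebyshev

/-!
# abc-triples composed of the primes of a random set: the lower bound
-/

set_option autoImplicit false

namespace Pool.Agent.D0H71.RPR

open Finset MeasureTheory Filter Topology

lemma prod_small' (k' : ℝ) (h0 : 0 < k') (h1 : k' ≤ 1) (M : ℕ) (Q : Finset ℕ) :
    k' ^ M ≤ ∏ p ∈ Q, (if p < M then k' else 1) := by
  rw [Finset.prod_ite, Finset.prod_const, Finset.prod_const_one, mul_one]
  refine pow_le_pow_of_le_one h0.le h1 ?_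
  have h := Finset.card_le_card (show Q.filter (fun p => p < M) ⊆ Finset.range M from fun p hp => by
    rw [Finset.mem_filter] at hp
    exact Finset.mem_range.2 hp.2)
  rwa [Finset.card_range] at h

lemma prod_lower (k θ ε : ℝ) (hk : 0 < k) (hε : 0 < ε) : ∃ c : ℝ, 0 < c ∧ ∀ Q : Finset ℕ,
    (∀ p ∈ Q, p.Prime) →
    c * ((∏ p ∈ Q, p : ℕ) : ℝ) ^ (-(θ + ε)) ≤ ∏ p ∈ Q, k * (p : ℝ) ^ (-θ) := by
  obtain ⟨k', hk'⟩ : ∃ k', k' = min k 1 := ⟨_, rfl⟩
  have h1 : k' ≤ 1 := by rw [hk']; exact min_le_right _ _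
  have h2 : k' ≤ k := by rw [hk']; exact min_le_left _ _
  have h0 : 0 < k' := by rw [hk']; exact lt_min hk one_pos
  obtain ⟨M, hM⟩ := big_enough (1 / k') ε ((le_div_iff₀ h0).2 (by linarith)) hε
  refine ⟨k' ^ M, by positivity, fun Q hQ => ?_⟩
  have h3 : ((∏ p ∈ Q, p : ℕ) : ℝ) ^ (-(θ + ε)) = ∏ p ∈ Q, (p : ℝ) ^ (-(θ + ε)) := by
    rw [Nat.cast_prod, Real.finset_prod_rpow]
    intro i _
    positivity
  rw [h3]
  have h4 : ∏ p ∈ Q, ((if p < M then k' else 1) * (p : ℝ) ^ (-(θ + ε))) ≤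
      ∏ p ∈ Q, k * (p : ℝ) ^ (-θ) := by
    refine Finset.prod_le_prod (fun p _ => by split_ifs <;> positivity) fun p hp => ?_
    have hp1 : (1 : ℝ) ≤ p := by exact_mod_cast (hQ p hp).one_lt.le
    have hp0 : (0 : ℝ) < p := by linarith
    by_cases h : p < M
    · rw [if_pos h]
      exact mul_le_mul h2 (Real.rpow_le_rpow_of_exponent_le hp1 (by linarith)) (by positivity) (by linarith)
    · rw [if_neg h, one_mul]
      have h5 := hM p (not_lt.1 h)
      have h6 : (p : ℝ) ^ (-ε) ≤ k := by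
        rw [Real.rpow_neg hp0.le]
        refine le_trans ?_ h2
        rw [inv_le_comm₀ (by positivity) h0, ← one_div]
        exact h5
      calc (p : ℝ) ^ (-(θ + ε)) = (p : ℝ) ^ (-ε) * (p : ℝ) ^ (-θ) := by
            rw [← Real.rpow_add hp0]
            congr 1
            ring
        _ ≤ k * (p : ℝ) ^ (-θ) := mul_le_mul_of_nonneg_right h6 (by positivity)
  refine le_trans ?_ h4
  rw [Finset.prod_mul_distrib]
  exact mul_le_mul_of_nonneg_right (prod_small' k' h0 h1 M Q) (Finset.prod_nonneg fun p _ => by positivity)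

/-- the primes between `2 ^ n` and `2 ^ (n + 2)` -/
def Pr (n : ℕ) : Finset ℕ := (Finset.Ioc (2 ^ n) (2 ^ (n + 2))).filter Nat.Prime

theorem many_primes (n : ℕ) (hn : 26 ≤ n) : (2 : ℝ) ^ n / (n + 2) ≤ (Pr n).card := by
  obtain ⟨N, hN⟩ : ∃ N : ℕ, N = 2 ^ n := ⟨_, rfl⟩
  obtain ⟨x, hx⟩ : ∃ x : ℝ, x = ((2 ^ (n + 2) : ℕ) : ℝ) := ⟨_, rfl⟩
  have hl2 : (0.69 : ℝ) < Real.log 2 := by linarith [Real.log_two_gt_d9]
  have hx4 : x = 4 * (2 : ℝ) ^ n := by
    rw [hx]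
    push_cast
    ring
  have hx0 : 0 < x := by rw [hx4]; positivity
  have hxbig : (10 : ℝ) ^ 8 ≤ x := by
    have h1 : 2 ^ 28 ≤ 2 ^ (n + 2) := Nat.pow_le_pow_right (by norm_num) (by omega)
    have h2 : ((2 ^ 28 : ℕ) : ℝ) ≤ x := by rw [hx]; exact_mod_cast h1
    refine le_trans ?_ h2
    norm_num
  have hlow := Chebyshev.theta_ge (2 ^ (n + 2))
  have hup := Chebyshev.theta_le_log4_mul_x (x := ((2 ^ n : ℕ) : ℝ)) (by positivity)
  rw [← hx] at hlow
  -- the error terms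
  have hq : x ^ (1 / 4 : ℝ) ≥ 100 := by
    have h1 : ((10 : ℝ) ^ 8) ^ (1 / 4 : ℝ) = 100 := by
      rw [show (10 : ℝ) ^ 8 = 100 ^ (4 : ℕ) by norm_num, ← Real.rpow_natCast, ← Real.rpow_mul (by norm_num)]
      norm_num
    rw [← h1]
    exact Real.rpow_le_rpow (by positivity) hxbig (by norm_num)
  have he1 : Real.log (x + 1) ≤ 8 * x ^ (3 / 4 : ℝ) := by
    have h1 := Real.log_le_rpow_div (x := x + 1) (ε := 3 / 4) (by linarith) (by norm_num)
    have h2 : (x + 1) ^ (3 / 4 : ℝ) ≤ (2 * x) ^ (3 / 4 : ℝ) :=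
      Real.rpow_le_rpow (by linarith) (by linarith) (by norm_num)
    have h3 : (2 * x) ^ (3 / 4 : ℝ) ≤ 2 * x ^ (3 / 4 : ℝ) := by
      rw [Real.mul_rpow (by norm_num) hx0.le]
      refine mul_le_mul_of_nonneg_right ?_ (by positivity)
      calc (2 : ℝ) ^ (3 / 4 : ℝ) ≤ 2 ^ (1 : ℝ) := Real.rpow_le_rpow_of_exponent_le (by norm_num) (by norm_num)
        _ = 2 := by rw [Real.rpow_one]
    have h4 : 0 < x ^ (3 / 4 : ℝ) := by positivity
    have h5 : (x + 1) ^ (3 / 4 : ℝ) / (3 / 4) ≤ 8 * x ^ (3 / 4 : ℝ) := by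
      rw [div_le_iff₀ (by norm_num)]
      linarith
    linarith
  have he2 : 2 * √x * Real.log x ≤ 8 * x ^ (3 / 4 : ℝ) := by
    have h1 := Real.log_le_rpow_div (x := x) (ε := 1 / 4) (by linarith) (by norm_num)
    have h2 : √x * x ^ (1 / 4 : ℝ) = x ^ (3 / 4 : ℝ) := by
      rw [Real.sqrt_eq_rpow, ← Real.rpow_add hx0]
      norm_num
    calc 2 * √x * Real.log x ≤ 2 * √x * (x ^ (1 / 4 : ℝ) / (1 / 4)) :=
          mul_le_mul_of_nonneg_left h1 (by positivity)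
      _ = 8 * (√x * x ^ (1 / 4 : ℝ)) := by ring
      _ = 8 * x ^ (3 / 4 : ℝ) := by rw [h2]
  have he3 : 16 * x ^ (3 / 4 : ℝ) ≤ 0.16 * x := by
    have h2 : x ^ (3 / 4 : ℝ) * x ^ (1 / 4 : ℝ) = x := by
      rw [← Real.rpow_add hx0]
      norm_num
    have h4 : 0 < x ^ (3 / 4 : ℝ) := by positivity
    nlinarith
  have hdiff : (2 : ℝ) ^ n * Real.log 2 ≤ Chebyshev.theta x - Chebyshev.theta ((2 ^ n : ℕ) : ℝ) := by
    have h4 : Real.log 4 = 2 * Real.log 2 := by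
      rw [show (4 : ℝ) = 2 ^ 2 by norm_num, Real.log_pow]
      norm_num
    rw [h4] at hup
    push_cast at hup
    have h6 : (2 : ℝ) ^ n = x / 4 := by rw [hx4]; ring
    rw [h6] at hup ⊢
    push_cast
    rw [h6]
    have h7 : 0.16 * x ≤ x / 4 * Real.log 2 := by nlinarith
    linarith
  -- the difference is at most the number of primes times the logarithm
  have hsum : Chebyshev.theta x - Chebyshev.theta ((2 ^ n : ℕ) : ℝ) ≤ (Pr n).card * Real.log x := by
    rw [hx, Chebyshev.theta_eq_sum_primesLE_log, Chebyshev.theta_eq_sum_primesLE_log]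
    have hsub : Nat.primesLE (2 ^ n) ⊆ Nat.primesLE (2 ^ (n + 2)) := by
      intro p hp
      rw [Nat.mem_primesLE] at hp ⊢
      exact ⟨hp.1.trans (Nat.pow_le_pow_right (by norm_num) (by omega)), hp.2⟩
    rw [← Finset.sum_sdiff hsub, add_sub_cancel_right]
    have hsub2 : Nat.primesLE (2 ^ (n + 2)) \ Nat.primesLE (2 ^ n) ⊆ Pr n := by
      intro p hp
      rw [Finset.mem_sdiff, Nat.mem_primesLE, Nat.mem_primesLE] at hp
      unfold Pr
      rw [Finset.mem_filter, Finset.mem_Ioc]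
      refine ⟨⟨?_, hp.1.1⟩, hp.1.2⟩
      by_contra hcon
      exact hp.2 ⟨not_lt.1 hcon, hp.1.2⟩
    have h1 : ∑ p ∈ Nat.primesLE (2 ^ (n + 2)) \ Nat.primesLE (2 ^ n), Real.log (p : ℝ) ≤
        ∑ p ∈ Pr n, Real.log (p : ℝ) :=
      Finset.sum_le_sum_of_subset_of_nonneg hsub2 fun p hp _ => by
        have := (Finset.mem_filter.1 hp).2.one_lt
        exact Real.log_nonneg (by exact_mod_cast this.le)
    refine h1.trans ?_
    rw [← nsmul_eq_mul]
    refine Finset.sum_le_card_nsmul _ _ _ fun p hp => ?_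
    have h2 := Finset.mem_filter.1 hp
    have h3 := (Finset.mem_Ioc.1 h2.1).2
    exact Real.log_le_log (by exact_mod_cast h2.2.pos) (by exact_mod_cast h3)
  have hlogx : Real.log x = (n + 2) * Real.log 2 := by
    rw [hx]
    push_cast
    rw [Real.log_pow]
    push_cast
    ring
  rw [hlogx] at hsum
  rw [div_le_iff₀ (by positivity)]
  have hfin := hdiff.trans hsum
  have h9 : (2 : ℝ) ^ n * Real.log 2 ≤ ((Pr n).card * (n + 2)) * Real.log 2 := by linarith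
  exact le_of_mul_le_mul_right h9 (by linarith)

lemma rad_mul_le (m n : ℕ) (hm : m ≠ 0) (hn : n ≠ 0) : rad (m * n) ≤ rad m * rad n := by
  unfold rad
  rw [Nat.primeFactors_mul hm hn, ← Finset.prod_union_inter]
  refine Nat.le_mul_of_pos_right _ (Finset.prod_pos fun p hp => ?_)
  exact (Nat.prime_of_mem_primeFactors (Finset.mem_inter.1 hp).1).pos

lemma rad_le (n : ℕ) (hn : 0 < n) : rad n ≤ n := Nat.le_of_dvd hn (Nat.prod_primeFactors_dvd _)

lemma rad_two_pow (j : ℕ) : rad (2 ^ j) ≤ 2 := by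
  unfold rad
  rcases Nat.eq_zero_or_pos j with h | h
  · subst h
    simp
  · rw [Nat.primeFactors_pow _ (by omega), Nat.Prime.primeFactors Nat.prime_two]
    simp

/-- the triples `(2 ^ j a, b)` with `b` prime -/
def Fam (n j : ℕ) : Finset (ℕ × ℕ) :=
  (Finset.Icc 1 (2 ^ (n - j)) ×ˢ Pr n).image fun q => (2 ^ j * q.1, q.2)

lemma fam_card (n j : ℕ) (hn : 26 ≤ n) :
    (2 : ℝ) ^ (n - j) * ((2 : ℝ) ^ n / (n + 2)) ≤ (Fam n j).card := by
  unfold Fam
  rw [Finset.card_image_of_injOn, Finset.card_product, Nat.card_Icc]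
  · push_cast [Nat.add_sub_cancel]
    exact mul_le_mul_of_nonneg_left (many_primes n hn) (by positivity)
  · rintro ⟨a, b⟩ _ ⟨a', b'⟩ _ h
    simp only [Prod.mk.injEq] at h
    obtain ⟨h1, h2⟩ := h
    have : a = a' := Nat.eq_of_mul_eq_mul_left (by positivity) h1
    rw [this, h2]

lemma fam_mem {n j : ℕ} (hj : j ≤ n) {t : ℕ × ℕ} (ht' : t ∈ Fam n j) :
    Triple t ∧ (2 : ℝ) ^ n ≤ ht t ∧ ht t ≤ 2 * R t ∧ (2 : ℝ) ^ n ≤ R t ∧ (R t : ℝ) ≤ 2 ^ (3 * n - j + 6) := by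
  unfold Fam at ht'
  rw [Finset.mem_image] at ht'
  obtain ⟨⟨a, b⟩, hab, rfl⟩ := ht'
  rw [Finset.mem_product, Finset.mem_Icc] at hab
  obtain ⟨⟨h1, h2⟩, h3⟩ := hab
  unfold Pr at h3
  rw [Finset.mem_filter, Finset.mem_Ioc] at h3
  obtain ⟨⟨h4, h5⟩, h6⟩ := h3
  simp only at h1 h2 h4 h5 h6
  have e1 : 2 ^ j * a ≤ 2 ^ n := by
    calc 2 ^ j * a ≤ 2 ^ j * 2 ^ (n - j) := Nat.mul_le_mul_left _ h2
      _ = 2 ^ n := by rw [← pow_add]; congr 1; omega
  have e0 : 0 < 2 ^ j * a := by positivity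
  have e2 : 2 ^ j * a < b := lt_of_le_of_lt e1 h4
  have hT : Triple (2 ^ j * a, b) := by
    refine ⟨e0, e2.le, ?_⟩
    exact ((Nat.Prime.coprime_iff_not_dvd h6).2 (Nat.not_dvd_of_pos_of_lt e0 e2)).symm
  have hb0 : 0 < b := h6.pos
  have hne : 2 ^ j * a * b * (2 ^ j * a + b) ≠ 0 := by positivity
  have hbR : b ≤ R (2 ^ j * a, b) := by
    unfold R rad
    refine Nat.le_of_dvd (Finset.prod_pos fun p hp => (Nat.prime_of_mem_primeFactors hp).pos) ?_
    refine Finset.dvd_prod_of_mem (fun p => p) (Nat.mem_primeFactors.2 ⟨h6, ?_, hne⟩)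
    exact Dvd.dvd.mul_right (Dvd.intro_left _ rfl) _
  have hbR' : (b : ℝ) ≤ R (2 ^ j * a, b) := by exact_mod_cast hbR
  have h4' : (2 : ℝ) ^ n ≤ b := by exact_mod_cast h4.le
  have hc2 : 2 ^ j * a + b ≤ 2 * b := by omega
  have hc3 : 2 ^ j * a + b ≤ 2 ^ (n + 3) := by
    have : 2 ^ (n + 3) = 2 ^ (n + 2) + 2 ^ (n + 2) := by ring
    have h8 : 2 ^ n ≤ 2 ^ (n + 2) := Nat.pow_le_pow_right (by norm_num) (by omega)
    omega
  refine ⟨hT, ?_, ?_, h4'.trans hbR', ?_⟩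
  · have : b ≤ 2 ^ j * a + b := Nat.le_add_left _ _
    have h9 : (b : ℝ) ≤ ht (2 ^ j * a, b) := by
      unfold ht
      exact_mod_cast this
    linarith
  · have h9 : ht (2 ^ j * a, b) ≤ 2 * (b : ℝ) := by
      unfold ht
      exact_mod_cast hc2
    linarith
  · have h10 : R (2 ^ j * a, b) ≤ 2 ^ (3 * n - j + 6) := by
      have f1 : R (2 ^ j * a, b) ≤ rad (2 ^ j) * rad a * rad b * rad (2 ^ j * a + b) := by
        unfold R
        refine (rad_mul_le _ _ (by positivity) (by positivity)).trans (Nat.mul_le_mul_right _ ?_)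
        refine (rad_mul_le _ _ (by positivity) (by positivity)).trans (Nat.mul_le_mul_right _ ?_)
        exact rad_mul_le _ _ (by positivity) (by omega)
      refine f1.trans ?_
      have f2 : rad (2 ^ j) * rad a * rad b * rad (2 ^ j * a + b) ≤
          2 * 2 ^ (n - j) * 2 ^ (n + 2) * 2 ^ (n + 3) := by
        gcongr
        · exact rad_two_pow j
        · exact (rad_le a h1).trans h2
        · exact (rad_le b hb0).trans h5
        · exact (rad_le _ (by positivity)).trans hc3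
      refine f2.trans (le_of_eq ?_)
      have f3 : 3 * n - j + 6 = 1 + (n - j) + (n + 2) + (n + 3) := by omega
      rw [f3, pow_add 2 (1 + (n - j) + (n + 2)), pow_add 2 (1 + (n - j)), pow_add 2 1, pow_one]
    exact_mod_cast h10

/-- different primes `p₁, …, p_k` belong together to the random set with probability at least
`∏ k p_i ^ (-θ)` -/
def Lower {Ω : Type} [MeasurableSpace Ω] (P : Measure Ω) (E : ℕ → Set Ω) (k θ : ℝ) : Prop :=
  0 < k ∧ ∀ Q : Finset ℕ, (∀ p ∈ Q, p.Prime) →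
    ENNReal.ofReal (∏ p ∈ Q, k * (p : ℝ) ^ (-θ)) ≤ P {ω | ∀ p ∈ Q, ω ∈ E p}

/-- the mean of the number of the triples of small radical is infinite -/
theorem mean_infinite {Ω : Type} [MeasurableSpace Ω] {P : Measure Ω} {E : ℕ → Set Ω} {k θ : ℝ}
    (hL : Lower P E k θ) (hθ : 1 / 2 ≤ θ) (hθ1 : θ < 2 / 3) (l A : ℝ) (hl : 1 / (1 - θ) < l)
    (hA : 1 < A) :
    ∑' t : {t : ℕ × ℕ | Triple t ∧ ht t ≤ (R t : ℝ) ^ A ∧ (R t : ℝ) ≤ ht t ^ l},
      P {ω | Composed E ω t.1} = ⊤ := by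
  have h1θ : 0 < 1 - θ := by linarith
  have hinv2 : 2 ≤ 1 / (1 - θ) := by rw [le_div_iff₀ h1θ]; linarith
  have hinv3 : 1 / (1 - θ) < 3 := by rw [div_lt_iff₀ h1θ]; linarith
  obtain ⟨μ, hμ⟩ : ∃ μ, μ = (1 / (1 - θ) + min l 3) / 2 := ⟨_, rfl⟩
  have hm : 1 / (1 - θ) < min l 3 := lt_min hl hinv3
  have hμ1 : 1 / (1 - θ) < μ := by rw [hμ]; linarith
  have hμ2 : μ < l := by
    rw [hμ]
    have := min_le_left l 3
    linarith
  have hμ3 : μ < 3 := by
    rw [hμ]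
    have := min_le_right l 3
    linarith
  have hμ4 : 2 < μ := by linarith
  have hgap : 0 < μ * (1 - θ) - 1 := by
    rw [div_lt_iff₀ h1θ] at hμ1
    linarith
  obtain ⟨ε, hε⟩ : ∃ ε, ε = (μ * (1 - θ) - 1) / (2 * μ) := ⟨_, rfl⟩
  have hε0 : 0 < ε := by rw [hε]; exact div_pos hgap (by linarith)
  have hεμ : ε * μ = (μ * (1 - θ) - 1) / 2 := by
    rw [hε]
    field_simp
  obtain ⟨c, hc, hlow⟩ := prod_lower k θ ε hL.1 hε0
  obtain ⟨g, hg⟩ : ∃ g, g = (μ * (1 - θ) - 1) / 2 := ⟨_, rfl⟩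
  have hg0 : 0 < g := by rw [hg]; linarith
  -- the real lower bound
  have hreal : ∀ n : ℕ, 26 ≤ n → ∀ j : ℕ, j = ⌊(3 - μ) * n⌋₊ → j ≤ n ∧
      (μ - 1) * n ≤ (2 * n - j : ℝ) ∧ ((3 * n - j + 6 : ℕ) : ℝ) ≤ μ * n + 7 := by
    intro n hn j hj
    have hn0 : (0 : ℝ) < n := by exact_mod_cast (by omega : 0 < n)
    have h1 : (j : ℝ) ≤ (3 - μ) * n := by
      rw [hj]
      exact Nat.floor_le (mul_nonneg (by linarith) hn0.le)
    have h2 : (3 - μ) * n < j + 1 := by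
      rw [hj]
      exact Nat.lt_floor_add_one _
    have h3 : j ≤ n := by
      have : (j : ℝ) ≤ n := by nlinarith
      exact_mod_cast this
    refine ⟨h3, by linarith, ?_⟩
    have h4 : ((3 * n - j + 6 : ℕ) : ℝ) = 3 * n - j + 6 := by
      rw [Nat.cast_add, Nat.cast_sub (by omega)]
      push_cast
      ring
    rw [h4]
    linarith
  have hmain : ∀ n : ℕ, 26 ≤ n → 7 ≤ (l - μ) * n → 1 ≤ (A - 1) * n →
      ENNReal.ofReal (c * 2 ^ (-(7 * (θ + ε))) * ((2 : ℝ) ^ (g * n) / (n + 2))) ≤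
      ∑' t : {t : ℕ × ℕ | Triple t ∧ ht t ≤ (R t : ℝ) ^ A ∧ (R t : ℝ) ≤ ht t ^ l},
      P {ω | Composed E ω t.1} := by
    intro n hn hn1 hn2
    obtain ⟨j, hj⟩ : ∃ j : ℕ, j = ⌊(3 - μ) * n⌋₊ := ⟨_, rfl⟩
    obtain ⟨hjn, hr1, hr2⟩ := hreal n hn j hj
    have hn0 : (0 : ℝ) < n := by exact_mod_cast (by omega : 0 < n)
    rw [tsum_subtype {t : ℕ × ℕ | Triple t ∧ ht t ≤ (R t : ℝ) ^ A ∧ (R t : ℝ) ≤ ht t ^ l}
      (fun t => P {ω | Composed E ω t})]
    refine le_trans ?_ (ENNReal.sum_le_tsum (Fam n j))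
    have hterm : ∀ t ∈ Fam n j, ENNReal.ofReal (c * (2 : ℝ) ^ (-((μ * n + 7) * (θ + ε)))) ≤
        Set.indicator {t : ℕ × ℕ | Triple t ∧ ht t ≤ (R t : ℝ) ^ A ∧ (R t : ℝ) ≤ ht t ^ l}
          (fun t => P {ω | Composed E ω t}) t := by
      intro t ht'
      obtain ⟨a1, a2, a3, a4, a5⟩ := fam_mem hjn ht'
      have hR0 : (0 : ℝ) < R t := by linarith [R_one t]
      have a5' : (R t : ℝ) ≤ (2 : ℝ) ^ (μ * n + 7) := by
        refine a5.trans ?_
        rw [← Real.rpow_natCast]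
        exact Real.rpow_le_rpow_of_exponent_le (by norm_num) hr2
      have hmem : t ∈ {t : ℕ × ℕ | Triple t ∧ ht t ≤ (R t : ℝ) ^ A ∧ (R t : ℝ) ≤ ht t ^ l} := by
        refine ⟨a1, ?_, ?_⟩
        · have h2 : (2 : ℝ) ≤ (R t : ℝ) ^ (A - 1) := by
            calc (2 : ℝ) = 2 ^ (1 : ℝ) := by rw [Real.rpow_one]
              _ ≤ 2 ^ ((n : ℝ) * (A - 1)) := Real.rpow_le_rpow_of_exponent_le (by norm_num) (by linarith)
              _ = ((2 : ℝ) ^ n) ^ (A - 1) := by rw [Real.rpow_mul (by norm_num), Real.rpow_natCast]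
              _ ≤ (R t : ℝ) ^ (A - 1) := Real.rpow_le_rpow (by positivity) a4 (by linarith)
          calc ht t ≤ 2 * R t := a3
            _ ≤ (R t : ℝ) ^ (A - 1) * R t := mul_le_mul_of_nonneg_right h2 hR0.le
            _ = (R t : ℝ) ^ A := by
                rw [← Real.rpow_add_one hR0.ne']
                congr 1
                ring
        · calc (R t : ℝ) ≤ (2 : ℝ) ^ (μ * n + 7) := a5'
            _ ≤ 2 ^ ((n : ℝ) * l) := Real.rpow_le_rpow_of_exponent_le (by norm_num) (by linarith)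
            _ = ((2 : ℝ) ^ n) ^ l := by rw [Real.rpow_mul (by norm_num), Real.rpow_natCast]
            _ ≤ ht t ^ l := Real.rpow_le_rpow (by positivity) a2 (by linarith)
      rw [Set.indicator_of_mem hmem, composed_sub t a1]
      have hQ : ∀ p ∈ (t.1 * t.2 * (t.1 + t.2)).primeFactors, p.Prime :=
        fun p hp => Nat.prime_of_mem_primeFactors hp
      refine le_trans ?_ (hL.2 _ hQ)
      refine ENNReal.ofReal_le_ofReal (le_trans ?_ (hlow _ hQ))
      refine mul_le_mul_of_nonneg_left ?_ hc.le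
      calc (2 : ℝ) ^ (-((μ * n + 7) * (θ + ε))) = ((2 : ℝ) ^ (μ * n + 7)) ^ (-(θ + ε)) := by
            rw [← Real.rpow_mul (by norm_num)]
            congr 1
            ring
        _ ≤ (R t : ℝ) ^ (-(θ + ε)) := Real.rpow_le_rpow_of_nonpos hR0 a5' (by linarith)
    refine le_trans ?_ (Finset.card_nsmul_le_sum _ _ _ hterm)
    rw [nsmul_eq_mul, ← ENNReal.ofReal_natCast, ← ENNReal.ofReal_mul (by positivity)]
    apply ENNReal.ofReal_le_ofReal
    have hcard := fam_card n j hn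
    have e1 : (2 : ℝ) ^ ((μ - 1) * n) / (n + 2) ≤ (Fam n j).card := by
      refine le_trans ?_ hcard
      rw [← mul_div_assoc]
      refine div_le_div_of_nonneg_right ?_ (by positivity)
      rw [← pow_add, ← Real.rpow_natCast]
      refine Real.rpow_le_rpow_of_exponent_le (by norm_num) ?_
      rw [Nat.cast_add, Nat.cast_sub hjn]
      linarith
    calc c * 2 ^ (-(7 * (θ + ε))) * ((2 : ℝ) ^ (g * n) / (n + 2))
        = ((2 : ℝ) ^ ((μ - 1) * n) / (n + 2)) * (c * (2 : ℝ) ^ (-((μ * n + 7) * (θ + ε)))) := by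
          have e2 : (2 : ℝ) ^ (-(7 * (θ + ε))) * (2 : ℝ) ^ (g * n) =
              (2 : ℝ) ^ ((μ - 1) * n) * (2 : ℝ) ^ (-((μ * n + 7) * (θ + ε))) := by
            rw [← Real.rpow_add (by norm_num), ← Real.rpow_add (by norm_num)]
            congr 1
            have e3 : g = μ - 1 - μ * (θ + ε) := by
              have : μ * (θ + ε) = μ * θ + ε * μ := by ring
              rw [this, hεμ, hg]
              ring
            rw [e3]
            ring
          calc c * 2 ^ (-(7 * (θ + ε))) * ((2 : ℝ) ^ (g * n) / (n + 2))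
              = c * (2 ^ (-(7 * (θ + ε))) * (2 : ℝ) ^ (g * n)) / (n + 2) := by ring
            _ = _ := by rw [e2]; ring
      _ ≤ (Fam n j).card * (c * (2 : ℝ) ^ (-((μ * n + 7) * (θ + ε)))) :=
          mul_le_mul_of_nonneg_right e1 (by positivity)
  -- to infinity
  by_contra htop
  obtain ⟨S, hS⟩ : ∃ S, S = ∑' t : {t : ℕ × ℕ | Triple t ∧ ht t ≤ (R t : ℝ) ^ A ∧
      (R t : ℝ) ≤ ht t ^ l}, P {ω | Composed E ω t.1} := ⟨_, rfl⟩
  rw [← hS] at htop hmain
  have htend : Tendsto (fun n : ℕ => c * 2 ^ (-(7 * (θ + ε))) * ((2 : ℝ) ^ (g * n) / (n + 2)))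
      atTop atTop := by
    refine Tendsto.const_mul_atTop (by positivity) ?_
    have h1 : Tendsto (fun n : ℕ => (n : ℝ) * (g ^ 2 * Real.log 2 ^ 2 / 6)) atTop atTop :=
      tendsto_natCast_atTop_atTop.atTop_mul_const (by
        have := Real.log_pos (one_lt_two : (1 : ℝ) < 2)
        positivity)
    refine tendsto_atTop_mono' _ ?_ h1
    filter_upwards [eventually_ge_atTop 1] with n hn
    have hn1 : (1 : ℝ) ≤ n := by exact_mod_cast hn
    rw [le_div_iff₀ (by positivity), Real.rpow_def_of_pos (by norm_num : (0 : ℝ) < 2)]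
    have hl2 := Real.log_pos (one_lt_two : (1 : ℝ) < 2)
    have h2 := Real.quadratic_le_exp_of_nonneg (x := Real.log 2 * (g * n)) (by positivity)
    have h3 : (n : ℝ) * (g ^ 2 * Real.log 2 ^ 2 / 6) * (n + 2) ≤ (Real.log 2 * (g * n)) ^ 2 / 2 := by
      have h4 : (n : ℝ) + 2 ≤ 3 * n := by linarith
      calc (n : ℝ) * (g ^ 2 * Real.log 2 ^ 2 / 6) * (n + 2) ≤
            (n : ℝ) * (g ^ 2 * Real.log 2 ^ 2 / 6) * (3 * n) :=
            mul_le_mul_of_nonneg_left h4 (by positivity)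
        _ = _ := by ring
    have h5 : 0 ≤ Real.log 2 * (g * n) := by positivity
    linarith
  obtain ⟨n, h1, h2, h3, h4⟩ := ((htend.eventually_gt_atTop S.toReal).and
    ((eventually_ge_atTop 26).and
    (((tendsto_natCast_atTop_atTop.const_mul_atTop (by linarith : 0 < l - μ)).eventually_ge_atTop 7).and
    ((tendsto_natCast_atTop_atTop.const_mul_atTop (by linarith : 0 < A - 1)).eventually_ge_atTop 1)))).exists
  have h5 := hmain n h2 h3 h4
  rw [ENNReal.ofReal_le_iff_le_toReal htop] at h5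
  linarith

end Pool.Agent.D0H71.RPR
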