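import Pool.Agent.R479.DA.Frac
import Pool.Agent.R909.RandSets

/-!
# abc-triples composed of the primes of a random set: the upper bound
-/

set_option autoImplicit false

namespace Pool.Agent.D0H71.RPR

open Finset MeasureTheory Filter Topology
open Pool.Agent.W221.ABC7 (Fx)

/-- the product of the distinct primes dividing `n` -/
def rad (n : ℕ) : ℕ := ∏ p ∈ n.primeFactors, p

/-- the abc-triple `(a, b, a + b)` is given by the pair `t = (a, b)`, `1 ≤ a ≤ b`, coprime -/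
def Triple (t : ℕ × ℕ) : Prop := 0 < t.1 ∧ t.1 ≤ t.2 ∧ Nat.Coprime t.1 t.2

/-- `rad (abc)` -/
def R (t : ℕ × ℕ) : ℕ := rad (t.1 * t.2 * (t.1 + t.2))

/-- the sum `c` -/
def ht (t : ℕ × ℕ) : ℝ := ((t.1 + t.2 : ℕ) : ℝ)

lemma rad_pos (n : ℕ) : 0 < rad n :=
  Finset.prod_pos fun _ hp => (Nat.prime_of_mem_primeFactors hp).pos

lemma R_one (t : ℕ × ℕ) : (1 : ℝ) ≤ R t := by exact_mod_cast rad_pos _

lemma two_le_ht {t : ℕ × ℕ} (h : Triple t) : 2 ≤ ht t := by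
  have : 2 ≤ t.1 + t.2 := by
    have := h.1
    have := h.2.1
    omega
  unfold ht
  exact_mod_cast this

lemma prod_small (K' : ℝ) (hK' : 1 ≤ K') (M : ℕ) (Q : Finset ℕ) :
    ∏ p ∈ Q, (if p < M then K' else 1) ≤ K' ^ M := by
  rw [Finset.prod_ite, Finset.prod_const, Finset.prod_const_one, mul_one]
  refine pow_le_pow_right₀ hK' ?_
  have h := Finset.card_le_card (show Q.filter (fun p => p < M) ⊆ Finset.range M from fun p hp => by
    rw [Finset.mem_filter] at hp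
    exact Finset.mem_range.2 hp.2)
  rwa [Finset.card_range] at h

lemma big_enough (K' ε : ℝ) (hK' : 1 ≤ K') (hε : 0 < ε) : ∃ M : ℕ, ∀ p : ℕ, M ≤ p → K' ≤ (p : ℝ) ^ ε := by
  refine ⟨⌈K' ^ (1 / ε)⌉₊, fun p hp => ?_⟩
  have h1 : K' ^ (1 / ε) ≤ (p : ℝ) := (Nat.le_ceil _).trans (by exact_mod_cast hp)
  have h2 : (K' ^ (1 / ε)) ^ ε = K' := by
    rw [← Real.rpow_mul (by linarith), one_div, inv_mul_cancel₀ hε.ne', Real.rpow_one]
  calc K' = (K' ^ (1 / ε)) ^ ε := h2.symm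
    _ ≤ (p : ℝ) ^ ε := Real.rpow_le_rpow (Real.rpow_nonneg (by linarith) _) h1 hε.le

lemma prod_upper (K θ ε : ℝ) (hK : 0 < K) (hε : 0 < ε) : ∃ C : ℝ, 0 < C ∧ ∀ Q : Finset ℕ,
    (∀ p ∈ Q, p.Prime) →
    ∏ p ∈ Q, K * (p : ℝ) ^ (-θ) ≤ C * ((∏ p ∈ Q, p : ℕ) : ℝ) ^ (-(θ - ε)) := by
  obtain ⟨K', hK'⟩ : ∃ K', K' = max K 1 := ⟨_, rfl⟩
  have h1 : 1 ≤ K' := by rw [hK']; exact le_max_right _ _
  have h2 : K ≤ K' := by rw [hK']; exact le_max_left _ _
  obtain ⟨M, hM⟩ := big_enough K' ε h1 hε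
  refine ⟨K' ^ M, by positivity, fun Q hQ => ?_⟩
  have h3 : ((∏ p ∈ Q, p : ℕ) : ℝ) ^ (-(θ - ε)) = ∏ p ∈ Q, (p : ℝ) ^ (-(θ - ε)) := by
    rw [Nat.cast_prod, Real.finset_prod_rpow]
    intro i _
    positivity
  rw [h3]
  have h4 : ∏ p ∈ Q, K * (p : ℝ) ^ (-θ) ≤
      ∏ p ∈ Q, ((if p < M then K' else 1) * (p : ℝ) ^ (-(θ - ε))) := by
    refine Finset.prod_le_prod (fun p _ => by positivity) fun p hp => ?_
    have hp1 : (1 : ℝ) ≤ p := by exact_mod_cast (hQ p hp).one_lt.le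
    have hp0 : (0 : ℝ) < p := by linarith
    by_cases h : p < M
    · rw [if_pos h]
      refine mul_le_mul h2 (Real.rpow_le_rpow_of_exponent_le hp1 (by linarith)) (by positivity) (by linarith)
    · rw [if_neg h, one_mul]
      calc K * (p : ℝ) ^ (-θ) ≤ (p : ℝ) ^ ε * (p : ℝ) ^ (-θ) :=
            mul_le_mul_of_nonneg_right (h2.trans (hM p (not_lt.1 h))) (by positivity)
        _ = (p : ℝ) ^ (-(θ - ε)) := by
            rw [← Real.rpow_add hp0]
            congr 1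
            ring
  refine h4.trans ?_
  rw [Finset.prod_mul_distrib]
  exact mul_le_mul_of_nonneg_right (prod_small K' h1 M Q) (Finset.prod_nonneg fun p _ => by positivity)

lemma Fx_le {l : ℝ} (h0 : 0 < l) : Fx l ≤ max (4 * l / 7) (l - 1) := by
  unfold Fx
  split_ifs with h1 h2 h3 h4 h5
  · exact le_max_left _ _
  · exact le_max_of_le_left (by linarith)
  · exact le_max_of_le_left (by linarith)
  · exact le_max_of_le_left (by linarith)
  · exact le_max_of_le_left (by linarith)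
  · exact le_max_right _ _

/-- the sum of `c ^ (-δ)` over the triples with `rad (abc) ≤ c ^ l` -/
theorem bad_summable (l δ : ℝ) (hl : 0 < l) (hδ : Fx l < δ) :
    Summable fun t : {t : ℕ × ℕ // Triple t ∧ (R t : ℝ) ≤ ht t ^ l} => ht t.1 ^ (-δ) := by
  have hF := Pool.Agent.W221.ABC7.Fx_pos l hl
  obtain ⟨C, hC⟩ := Pool.Agent.R479.DA.sm_count 1 l hl ((δ - Fx l) / 2) (by linarith)
  refine Pool.Agent.R479.DA.summable_heights (ι := {t : ℕ × ℕ // Triple t ∧ (R t : ℝ) ≤ ht t ^ l})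
    (fun t => ht t.1)
    (fun t => le_trans one_le_two (two_le_ht t.2.1)) (s := Fx l + (δ - Fx l) / 2) (p := δ) (C := C)
    (by linarith) (by linarith) ?_
  intro X hX
  obtain ⟨hfin, hle⟩ := hC X hX
  have hinj : Set.InjOn (fun t : {t : ℕ × ℕ // Triple t ∧ (R t : ℝ) ≤ ht t ^ l} =>
      ((t.1.1, t.1.1 + t.1.2) : ℕ × ℕ)) {t | ht t.1 ≤ X} := by
    rintro ⟨⟨a, b⟩, _⟩ _ ⟨⟨a', b'⟩, _⟩ _ h
    simp only [Prod.mk.injEq] at h
    obtain ⟨h1, h2⟩ := h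
    subst h1
    have h3 : b = b' := by omega
    subst h3
    rfl
  have hmaps : Set.MapsTo (fun t : {t : ℕ × ℕ // Triple t ∧ (R t : ℝ) ≤ ht t ^ l} =>
      ((t.1.1, t.1.1 + t.1.2) : ℕ × ℕ)) {t | ht t.1 ≤ X}
      {t | t ∈ Pool.Agent.R479.DA.Sm 1 l ∧ (t.2 : ℝ) ≤ X} := by
    rintro ⟨⟨a, b⟩, ⟨⟨h1, h2, h3⟩, h4⟩⟩ h5
    simp only at h1 h2 h3
    refine ⟨⟨h1, by simp only; omega, ?_, ?_⟩, h5⟩
    · simp only
      exact (Nat.coprime_self_add_right).2 h3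
    · simp only
      rw [show a * (a + b) * (a + b - a) = a * b * (a + b) by
        rw [Nat.add_sub_cancel_left]; ring, one_mul]
      exact h4
  have hf : {t : {t : ℕ × ℕ // Triple t ∧ (R t : ℝ) ≤ ht t ^ l} | ht t.1 ≤ X}.Finite :=
    hfin.of_injOn hmaps hinj
  exact ⟨hf, le_trans (by exact_mod_cast Set.ncard_le_ncard_of_injOn _ hmaps hinj hfin) hle⟩

/-- all the primes dividing `abc` belong to the random set of the primes `p` with `ω ∈ E p` -/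
def Composed {Ω : Type} (E : ℕ → Set Ω) (ω : Ω) (t : ℕ × ℕ) : Prop :=
  ∀ p : ℕ, p.Prime → p ∣ t.1 * t.2 * (t.1 + t.2) → ω ∈ E p

/-- different primes `p₁, …, p_k` belong together to the random set with probability at most
`∏ K p_i ^ (-θ)` -/
def Upper {Ω : Type} [MeasurableSpace Ω] (P : Measure Ω) (E : ℕ → Set Ω) (K θ : ℝ) : Prop :=
  0 < K ∧ ∀ Q : Finset ℕ, (∀ p ∈ Q, p.Prime) →
    P {ω | ∀ p ∈ Q, ω ∈ E p} ≤ ENNReal.ofReal (∏ p ∈ Q, K * (p : ℝ) ^ (-θ))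

variable {Ω : Type} [MeasurableSpace Ω] {P : Measure Ω} {E : ℕ → Set Ω}

lemma composed_sub (t : ℕ × ℕ) (h : Triple t) :
    {ω | Composed E ω t} = {ω | ∀ p ∈ (t.1 * t.2 * (t.1 + t.2)).primeFactors, ω ∈ E p} := by
  have h0 : t.1 * t.2 * (t.1 + t.2) ≠ 0 := by
    have h1 := h.1
    have h2 : 0 < t.2 := lt_of_lt_of_le h.1 h.2.1
    positivity
  ext ω
  simp only [Set.mem_ofPred_eq, Composed, Nat.mem_primeFactors]
  exact ⟨fun h1 p hp => h1 p hp.1 hp.2.1, fun h1 p hp hd => h1 p ⟨hp, hd, h0⟩⟩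

lemma prob_le {K θ : ℝ} (hU : Upper P E K θ) {ε : ℝ} (hε : 0 < ε) : ∃ C : ℝ, 0 < C ∧ ∀ t : ℕ × ℕ,
    Triple t → P {ω | Composed E ω t} ≤ ENNReal.ofReal (C * (R t : ℝ) ^ (-(θ - ε))) := by
  obtain ⟨C, hC, h⟩ := prod_upper K θ ε hU.1 hε
  refine ⟨C, hC, fun t ht => ?_⟩
  rw [composed_sub t ht]
  have hQ : ∀ p ∈ (t.1 * t.2 * (t.1 + t.2)).primeFactors, p.Prime :=
    fun p hp => Nat.prime_of_mem_primeFactors hp
  exact (hU.2 _ hQ).trans (ENNReal.ofReal_le_ofReal (h _ hQ))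

/-- one step -/
theorem step {K θ : ℝ} (hU : Upper P E K θ) {ε μ₀ μ : ℝ} (hε : 0 < ε) (hεθ : ε ≤ θ) (h0 : 0 < μ₀) (hμ : μ₀ < μ)
    (hF : Fx μ < (θ - ε) * μ₀) :
    ∀ᵐ ω ∂P, {t | (Triple t ∧ ht t ^ μ₀ ≤ (R t : ℝ) ∧ (R t : ℝ) ≤ ht t ^ μ) ∧ Composed E ω t}.Finite := by
  obtain ⟨C, hC, h⟩ := prob_le hU hε
  have h2 := (Pool.Agent.R909.RS.main_subtype (P := P) (H := ht) (T := ℕ × ℕ)
    (Q := fun t => Triple t ∧ (R t : ℝ) ≤ ht t ^ μ)
    (E := fun t => if ht t ^ μ₀ ≤ (R t : ℝ) then {ω | Composed E ω t} else ∅) (C := C)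
    (q := (θ - ε) * μ₀) (p := (θ - ε) * μ₀) (η := 0)
    (fun t ht' => by linarith [two_le_ht ht'.1]) ?_ le_rfl (by linarith)
    (bad_summable μ _ (h0.trans hμ) hF)).1
  · filter_upwards [h2] with ω hω
    refine hω.subset ?_
    rintro t ⟨⟨a1, a2, a3⟩, a4⟩
    refine ⟨⟨a1, a3⟩, ?_⟩
    rw [if_pos a2]
    exact a4
  · rintro t ⟨a1, a2⟩
    have hh := two_le_ht a1
    by_cases a3 : ht t ^ μ₀ ≤ (R t : ℝ)
    · simp only [if_pos a3]
      refine (h t a1).trans (ENNReal.ofReal_le_ofReal ?_)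
      refine mul_le_mul_of_nonneg_left ?_ hC.le
      calc (R t : ℝ) ^ (-(θ - ε)) ≤ (ht t ^ μ₀) ^ (-(θ - ε)) :=
            Real.rpow_le_rpow_of_nonpos (Real.rpow_pos_of_pos (by linarith) _) a3 (by linarith)
        _ = ht t ^ (-((θ - ε) * μ₀)) := by
            rw [← Real.rpow_mul (by linarith)]
            congr 1
            ring
    · simp only [if_neg a3, measure_empty]
      exact bot_le

/-- a whole range of exponents -/
theorem range_steps {K θ : ℝ} (hU : Upper P E K θ) (hθ : 4 / 7 < θ) (hθ1 : θ < 1) {lo hi : ℝ} (h0 : 0 < lo)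
    (hlh : lo ≤ hi) (hhi : hi < 1 / (1 - θ)) :
    ∀ᵐ ω ∂P, {t | (Triple t ∧ ht t ^ lo ≤ (R t : ℝ) ∧ (R t : ℝ) ≤ ht t ^ hi) ∧ Composed E ω t}.Finite := by
  have h1θ : 0 < 1 - θ := by linarith
  have h5 : (1 - θ) * hi < 1 := by
    rw [lt_div_iff₀ h1θ] at hhi
    linarith
  obtain ⟨m, hm⟩ : ∃ m, m = min ((θ - 4 / 7) * lo) ((1 - (1 - θ) * hi) / 2) := ⟨_, rfl⟩
  have hm0 : 0 < m := by
    rw [hm]
    exact lt_min (mul_pos (by linarith) h0) (by linarith)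
  have hm1 : m ≤ (θ - 4 / 7) * lo := by rw [hm]; exact min_le_left _ _
  have hm2 : m ≤ (1 - (1 - θ) * hi) / 2 := by rw [hm]; exact min_le_right _ _
  obtain ⟨h, hh⟩ : ∃ h, h = m / 4 := ⟨_, rfl⟩
  have hh0 : 0 < h := by rw [hh]; linarith
  have hhi0 : 0 < hi := by linarith
  obtain ⟨ε, hε⟩ : ∃ ε, ε = min (m / (4 * (hi + 1))) (θ / 2) := ⟨_, rfl⟩
  have hε0 : 0 < ε := by rw [hε]; exact lt_min (by positivity) (by linarith)
  have hε1 : ε ≤ θ := by
    have : ε ≤ θ / 2 := by rw [hε]; exact min_le_right _ _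
    linarith
  have hε2 : ε * (hi + 1) ≤ m / 4 := by
    have h6 : ε ≤ m / (4 * (hi + 1)) := by rw [hε]; exact min_le_left _ _
    rw [le_div_iff₀ (by positivity)] at h6
    linarith
  have key : ∀ i : ℕ, lo + i * h ≤ hi → Fx (lo + i * h + h) < (θ - ε) * (lo + i * h) := by
    intro i hi'
    obtain ⟨μ, hμ⟩ : ∃ μ, μ = lo + i * h := ⟨_, rfl⟩
    rw [← hμ] at hi' ⊢
    have hμ0 : lo ≤ μ := by
      rw [hμ]
      have : 0 ≤ (i : ℝ) * h := by positivity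
      linarith
    have hF := Fx_le (l := μ + h) (by linarith)
    have e1 : ε * μ ≤ m / 4 := by
      have : ε * μ ≤ ε * (hi + 1) := mul_le_mul_of_nonneg_left (by linarith) hε0.le
      linarith
    have e2 : (θ - 4 / 7) * lo ≤ (θ - 4 / 7) * μ := mul_le_mul_of_nonneg_left hμ0 (by linarith)
    have e3 : (1 - θ) * μ ≤ (1 - θ) * hi := mul_le_mul_of_nonneg_left hi' h1θ.le
    have e4 : 4 * (μ + h) / 7 < (θ - ε) * μ := by
      have : (θ - ε) * μ = (θ - 4 / 7) * μ + 4 / 7 * μ - ε * μ := by ring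
      rw [this]
      linarith
    have e5 : μ + h - 1 < (θ - ε) * μ := by
      have : (θ - ε) * μ = μ - (1 - θ) * μ - ε * μ := by ring
      rw [this]
      linarith
    exact lt_of_le_of_lt hF (max_lt e4 e5)
  obtain ⟨n, hn⟩ : ∃ n : ℕ, n = ⌊(hi - lo) / h⌋₊ := ⟨_, rfl⟩
  have hall : ∀ᵐ ω ∂P, ∀ i : ℕ, lo + i * h ≤ hi →
      {t | (Triple t ∧ ht t ^ (lo + i * h) ≤ (R t : ℝ) ∧ (R t : ℝ) ≤ ht t ^ (lo + i * h + h)) ∧
        Composed E ω t}.Finite := by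
    rw [ae_all_iff]
    intro i
    by_cases hi' : lo + i * h ≤ hi
    · have h7 := step hU hε0 hε1 (μ₀ := lo + i * h) (μ := lo + i * h + h)
        (by have : 0 ≤ (i : ℝ) * h := by positivity
            linarith) (by linarith) (key i hi')
      filter_upwards [h7] with ω hω _
      exact hω
    · exact Eventually.of_forall fun ω h8 => absurd h8 hi'
  filter_upwards [hall] with ω hω
  have hfin : (⋃ i ∈ Finset.range (n + 1), {t | (Triple t ∧ ht t ^ (lo + i * h) ≤ (R t : ℝ) ∧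
      (R t : ℝ) ≤ ht t ^ (lo + i * h + h)) ∧ Composed E ω t}).Finite := by
    refine Set.Finite.biUnion (Finset.finite_toSet _) fun i hi' => hω i ?_
    have h8 : i ≤ n := by
      have := Finset.mem_coe.1 hi'
      rw [Finset.mem_range] at this
      omega
    have h9 : (i : ℝ) ≤ (hi - lo) / h := by
      have h10 : (n : ℝ) ≤ (hi - lo) / h := by
        rw [hn]
        exact Nat.floor_le (div_nonneg (by linarith) hh0.le)
      have : (i : ℝ) ≤ n := by exact_mod_cast h8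
      linarith
    rw [le_div_iff₀ hh0] at h9
    linarith
  refine hfin.subset ?_
  rintro t ⟨⟨a1, a2, a3⟩, a4⟩
  have hht := two_le_ht a1
  have hht0 : 0 < ht t := by linarith
  have hlog : 0 < Real.log (ht t) := Real.log_pos (by linarith)
  have hR : (0 : ℝ) < R t := by linarith [R_one t]
  obtain ⟨x, hx⟩ : ∃ x, x = Real.log (R t) / Real.log (ht t) := ⟨_, rfl⟩
  have hxR : ht t ^ x = R t := by
    rw [hx, Real.rpow_def_of_pos hht0, mul_div_cancel₀ _ hlog.ne', Real.exp_log hR]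
  have hx1 : lo ≤ x := by
    rw [hx, le_div_iff₀ hlog]
    have := Real.log_le_log (Real.rpow_pos_of_pos hht0 _) a2
    rwa [Real.log_rpow hht0] at this
  have hx2 : x ≤ hi := by
    rw [hx, div_le_iff₀ hlog]
    have := Real.log_le_log hR a3
    rwa [Real.log_rpow hht0] at this
  obtain ⟨i, hi'⟩ : ∃ i : ℕ, i = ⌊(x - lo) / h⌋₊ := ⟨_, rfl⟩
  have b1 : (i : ℝ) ≤ (x - lo) / h := by
    rw [hi']
    exact Nat.floor_le (div_nonneg (by linarith) hh0.le)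
  have b2 : (x - lo) / h < (i : ℝ) + 1 := by
    rw [hi']
    exact Nat.lt_floor_add_one _
  rw [le_div_iff₀ hh0] at b1
  rw [div_lt_iff₀ hh0] at b2
  have b3 : i ∈ Finset.range (n + 1) := by
    rw [Finset.mem_range, hi', hn]
    have : ⌊(x - lo) / h⌋₊ ≤ ⌊(hi - lo) / h⌋₊ := Nat.floor_le_floor (by gcongr)
    omega
  refine Set.mem_iUnion₂.2 ⟨i, b3, ⟨a1, ?_, ?_⟩, a4⟩
  · rw [← hxR]
    exact Real.rpow_le_rpow_of_exponent_le (by linarith) (by linarith)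
  · rw [← hxR]
    exact Real.rpow_le_rpow_of_exponent_le (by linarith) (by nlinarith)

end Pool.Agent.D0H71.RPR
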